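import Mathlib
import Pool.Agent.Helper601.BT
import Pool.Agent.TH935.LP.L1

set_option autoImplicit false

/-! Primes `1` modulo `l`: harmonic sums. -/

namespace Pool.Agent.N756.CF

open Finset Classical

/-- the primes `p ≤ N` with `l ∣ p - 1` -/
noncomputable def PL (N l : ℕ) : Finset ℕ := (Icc 1 N).filter (fun p => p.Prime ∧ l ∣ p - 1)

lemma harm_le (N : ℕ) : ∑ k ∈ Icc 1 N, (1 / (k : ℝ)) ≤ 1 + Real.log N :=
  Pool.Agent.TH935.DSB.harm N

/-- sums over `k` with `1 + k l` prime -/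
lemma ksum : ∃ C : ℝ, 1 ≤ C ∧ ∀ N l : ℕ, l.Prime → 3 ≤ N →
    ∑ k ∈ (Icc 1 N).filter (fun k => (1 + k * l).Prime), (1 / (k : ℝ)) ≤
      C * (1 + Real.log ((Nat.log 2 N + 1 : ℕ) : ℝ)) := by
  obtain ⟨C, hC1, hC⟩ := Pool.Agent.Helper601.brun_titchmarsh
  refine ⟨3 * C, by linarith, fun N l hl hN => ?_⟩
  have hlog2 : (0.69 : ℝ) < Real.log 2 := by have := Real.log_two_gt_d9; linarith
  have h1 : ∑ k ∈ (Icc 1 N).filter (fun k => (1 + k * l).Prime), (1 / (k : ℝ)) =
      ∑ i ∈ range (Nat.log 2 N + 1), ∑ k ∈ ((Icc 1 N).filter (fun k => (1 + k * l).Prime)).filter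
        (fun k => Nat.log 2 k = i), (1 / (k : ℝ)) := by
    rw [sum_fiberwise_of_maps_to]
    intro k hk
    rw [mem_filter, mem_Icc] at hk
    rw [mem_range]
    have := Nat.log_mono_right (b := 2) hk.1.2
    omega
  rw [h1]
  have h2 : ∀ i ∈ range (Nat.log 2 N + 1), ∑ k ∈ ((Icc 1 N).filter (fun k => (1 + k * l).Prime)).filter
        (fun k => Nat.log 2 k = i), (1 / (k : ℝ)) ≤ 3 * C * (1 / ((i + 1 : ℕ) : ℝ)) := by
    intro i _
    have h3 : ∀ k ∈ ((Icc 1 N).filter (fun k => (1 + k * l).Prime)).filter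
        (fun k => Nat.log 2 k = i), (1 / (k : ℝ)) ≤ 1 / 2 ^ i := by
      intro k hk
      rw [mem_filter, mem_filter, mem_Icc] at hk
      have h4 : 2 ^ i ≤ k := by
        rw [← hk.2]
        exact Nat.pow_log_le_self 2 (by omega)
      have h5 : ((2 : ℝ) ^ i) ≤ k := by exact_mod_cast h4
      exact one_div_le_one_div_of_le (by positivity) h5
    have h6 : (((Icc 1 N).filter (fun k => (1 + k * l).Prime)).filter
        (fun k => Nat.log 2 k = i)).card ≤ ((range (2 ^ (i + 1))).filter (fun k => (1 + k * l).Prime)).card := by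
      apply card_le_card
      intro k hk
      rw [mem_filter, mem_filter, mem_Icc] at hk
      rw [mem_filter, mem_range]
      refine ⟨?_, hk.1.2⟩
      rw [← hk.2]
      exact Nat.lt_pow_succ_log_self (by norm_num) k
    have h7 := hC 1 l (2 ^ (i + 1)) (by
      calc 2 = 2 ^ 1 := by norm_num
        _ ≤ 2 ^ (i + 1) := Nat.pow_le_pow_right (by norm_num) (by omega)) (Or.inr hl)
    have h8 : ((((Icc 1 N).filter (fun k => (1 + k * l).Prime)).filter
        (fun k => Nat.log 2 k = i)).card : ℝ) ≤ C * ((2 ^ (i + 1) : ℕ) : ℝ) / Real.log ((2 ^ (i + 1) : ℕ) : ℝ) := by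
      refine le_trans ?_ h7
      exact_mod_cast h6
    have h9 : Real.log ((2 ^ (i + 1) : ℕ) : ℝ) = ((i + 1 : ℕ) : ℝ) * Real.log 2 := by
      push_cast
      rw [Real.log_pow]
      push_cast
      ring
    have hi0 : (0 : ℝ) < ((i + 1 : ℕ) : ℝ) := by positivity
    obtain ⟨S, hS⟩ : ∃ S, S = ((Icc 1 N).filter (fun k => (1 + k * l).Prime)).filter
        (fun k => Nat.log 2 k = i) := ⟨_, rfl⟩
    rw [← hS] at h3 h8 ⊢
    calc ∑ k ∈ S, (1 / (k : ℝ)) ≤ S.card • (1 / (2 : ℝ) ^ i) := sum_le_card_nsmul _ _ _ h3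
      _ = (S.card : ℝ) * (1 / (2 : ℝ) ^ i) := nsmul_eq_mul _ _
      _ ≤ (C * ((2 ^ (i + 1) : ℕ) : ℝ) / Real.log ((2 ^ (i + 1) : ℕ) : ℝ)) * (1 / (2 : ℝ) ^ i) :=
        mul_le_mul_of_nonneg_right h8 (by positivity)
      _ = 2 * C / (((i + 1 : ℕ) : ℝ) * Real.log 2) := by
        rw [h9]
        push_cast
        rw [pow_succ]
        field_simp
      _ ≤ 3 * C * (1 / ((i + 1 : ℕ) : ℝ)) := by
        rw [mul_one_div, div_le_div_iff₀ (by positivity) hi0]
        nlinarith [mul_pos (show (0 : ℝ) < C by linarith) hi0]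
  refine (sum_le_sum h2).trans ?_
  rw [← mul_sum]
  apply mul_le_mul_of_nonneg_left _ (by linarith)
  have h3 := harm_le (Nat.log 2 N + 1)
  refine le_trans (le_of_eq ?_) h3
  rw [range_eq_Ico, Finset.sum_Ico_add' (fun k : ℕ => 1 / (k : ℝ)) 0 (Nat.log 2 N + 1) 1]
  rfl

/-- the harmonic sum of the primes `1` modulo `l` -/
lemma psum : ∃ C : ℝ, 1 ≤ C ∧ ∀ N l : ℕ, l.Prime → 3 ≤ N →
    ∑ p ∈ PL N l, (1 / (p : ℝ)) ≤ C * (1 + Real.log (Real.log N)) / l := by
  obtain ⟨C, hC1, hC⟩ := ksum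
  refine ⟨3 * C, by linarith, fun N l hl hN => ?_⟩
  have hl0 : (0 : ℝ) < l := by exact_mod_cast hl.pos
  have hN3 : (3 : ℝ) ≤ N := by exact_mod_cast hN
  have hLN : 1 ≤ Real.log N := by
    rw [Real.le_log_iff_exp_le (by linarith)]
    have := Real.exp_one_lt_d9
    linarith
  have hLL : 0 ≤ Real.log (Real.log N) := Real.log_nonneg hLN
  have h1 : ∑ p ∈ PL N l, (1 / (p : ℝ)) ≤
      ∑ k ∈ (Icc 1 N).filter (fun k => (1 + k * l).Prime), (1 / (l : ℝ)) * (1 / (k : ℝ)) := by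
    have h2 : ∀ p ∈ PL N l, p = 1 + (p - 1) / l * l ∧ 1 ≤ (p - 1) / l ∧ (p - 1) / l ≤ N := by
      intro p hp
      rw [PL, mem_filter, mem_Icc] at hp
      obtain ⟨⟨h1, h2⟩, h3, h4⟩ := hp
      have h5 := Nat.div_mul_cancel h4
      have h6 := h3.two_le
      refine ⟨by omega, ?_, ?_⟩
      · exact Nat.div_pos (Nat.le_of_dvd (by omega) h4) hl.pos
      · have := Nat.div_le_self (p - 1) l
        omega
    have h3 : ∑ p ∈ PL N l, (1 / (p : ℝ)) ≤ ∑ p ∈ PL N l, (1 / (l : ℝ)) * (1 / (((p - 1) / l : ℕ) : ℝ)) := by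
      apply sum_le_sum
      intro p hp
      obtain ⟨e1, e2, e3⟩ := h2 p hp
      have e4 : (0 : ℝ) < (((p - 1) / l : ℕ) : ℝ) := by exact_mod_cast e2
      rw [one_div_mul_one_div]
      apply one_div_le_one_div_of_le (by positivity)
      have e5 : (l * ((p - 1) / l) : ℕ) ≤ p := by
        rw [mul_comm]
        omega
      exact_mod_cast e5
    refine h3.trans ?_
    rw [← sum_image (s := PL N l) (g := fun p => (p - 1) / l) (f := fun k : ℕ => (1 / (l : ℝ)) * (1 / (k : ℝ)))]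
    · apply sum_le_sum_of_subset_of_nonneg
      · intro k hk
        rw [mem_image] at hk
        obtain ⟨p, hp, rfl⟩ := hk
        obtain ⟨e1, e2, e3⟩ := h2 p hp
        rw [mem_filter, mem_Icc]
        refine ⟨⟨e2, e3⟩, ?_⟩
        rw [← e1]
        rw [PL, mem_filter] at hp
        exact hp.2.1
      · intro k _ _
        positivity
    · intro p hp p' hp' h
      obtain ⟨e1, _, _⟩ := h2 p hp
      obtain ⟨e1', _, _⟩ := h2 p' hp'
      simp only at h
      rw [e1, e1', h]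
  refine h1.trans ?_
  rw [← mul_sum]
  have h2 := hC N l hl hN
  have h3 : Real.log ((Nat.log 2 N + 1 : ℕ) : ℝ) ≤ 2 + Real.log (Real.log N) := by
    have e1 : ((Nat.log 2 N : ℕ) : ℝ) ≤ Real.log N / Real.log 2 := by
      have := Real.natLog_le_logb N 2
      rwa [Real.logb] at this
    have hlog2 : (0.69 : ℝ) < Real.log 2 := by have := Real.log_two_gt_d9; linarith
    have e2 : Real.log N / Real.log 2 ≤ 2 * Real.log N := by
      rw [div_le_iff₀ (by linarith)]
      nlinarith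
    have e3 : ((Nat.log 2 N + 1 : ℕ) : ℝ) ≤ 3 * Real.log N := by
      push_cast
      linarith
    have e4 : Real.log ((Nat.log 2 N + 1 : ℕ) : ℝ) ≤ Real.log (3 * Real.log N) :=
      Real.log_le_log (by positivity) e3
    rw [Real.log_mul (by norm_num) (by linarith)] at e4
    have e5 : Real.log 3 ≤ 2 := by
      have := Real.log_le_sub_one_of_pos (show (0 : ℝ) < 3 by norm_num)
      linarith
    linarith
  have h4 : C * (1 + Real.log ((Nat.log 2 N + 1 : ℕ) : ℝ)) ≤ 3 * C * (1 + Real.log (Real.log N)) := by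
    nlinarith
  calc (1 / (l : ℝ)) * ∑ k ∈ (Icc 1 N).filter (fun k => (1 + k * l).Prime), (1 / (k : ℝ)) ≤
      (1 / (l : ℝ)) * (3 * C * (1 + Real.log (Real.log N))) :=
        mul_le_mul_of_nonneg_left (h2.trans h4) (by positivity)
    _ = 3 * C * (1 + Real.log (Real.log N)) / l := by ring

end Pool.Agent.N756.CF
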