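import Mathlib
import Pool.Agent.N756.CF.A
import Pool.Agent.N733.TG.D

set_option autoImplicit false

/-! Few `m` with a large common divisor of `p - 1` (`p` a large prime factor) and of the Carmichael function of
the smooth part. -/

namespace Pool.Agent.N756.CF

open Finset Classical
open Pool.Agent.N733.TG (sp rp sp_mul_rp sp_pos rp_pos le_of_dvd_sp lt_of_dvd_rp coprime_sp_rp few_large few_square tele)

lemma card_dvd_le (N d : ℕ) : (((Icc 1 N).filter (fun m => d ∣ m)).card : ℝ) ≤ N * (1 / (d : ℝ)) := by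
  have hc : ((Icc 1 N).filter (fun m => d ∣ m)).card = N / d := by
    have := Nat.Ioc_filter_dvd_card_eq_div N d
    rw [← this]
    rfl
  rw [hc, mul_one_div]
  exact Nat.cast_div_le

/-- sum of `1/l^2` over `l > y` -/
lemma tail_sq (y M : ℕ) (hy : 1 ≤ y) : ∑ l ∈ Ioc y (M + y), (1 / (l : ℝ)) ^ 2 ≤ 1 / (y : ℝ) := by
  have h1 : ∀ l ∈ Ioc y (M + y), (1 / (l : ℝ)) ^ 2 ≤ (1 : ℝ) / (l - 1 : ℝ) - 1 / l := by
    intro l hl
    rw [mem_Ioc] at hl
    have hp1 : (1 : ℝ) < l := by exact_mod_cast (by omega : 1 < l)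
    rw [div_sub_div _ _ (by linarith) (by linarith), one_div_pow, div_le_div_iff₀ (by positivity) (mul_pos (by linarith) (by linarith))]
    nlinarith
  refine (sum_le_sum h1).trans ?_
  rw [tele y (M + y) hy (by omega)]
  have : (0 : ℝ) ≤ 1 / ((M + y : ℕ) : ℝ) := by positivity
  linarith

/-- two prime factors `≡ 1` modulo a prime `l > y` -/
lemma bad1 : ∃ C : ℝ, 1 ≤ C ∧ ∀ N y : ℕ, 3 ≤ N → 1 ≤ y →
    (((Icc 1 N).filter (fun m => ∃ l p p' : ℕ, l.Prime ∧ y < l ∧ p.Prime ∧ p'.Prime ∧ p ≠ p' ∧ p ∣ m ∧ p' ∣ m ∧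
      l ∣ p - 1 ∧ l ∣ p' - 1)).card : ℝ) ≤ N * (C * (1 + Real.log (Real.log N)) ^ 2 / y) := by
  obtain ⟨C, hC1, hC⟩ := psum
  refine ⟨C ^ 2, by nlinarith, fun N y hN hy => ?_⟩
  have hN3 : (3 : ℝ) ≤ N := by exact_mod_cast hN
  have hLN : 1 ≤ Real.log N := by
    rw [Real.le_log_iff_exp_le (by linarith)]
    have := Real.exp_one_lt_d9
    linarith
  have hLL : 0 ≤ Real.log (Real.log N) := Real.log_nonneg hLN
  obtain ⟨T, hT⟩ : ∃ T, T = 1 + Real.log (Real.log N) := ⟨_, rfl⟩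
  have hT1 : 1 ≤ T := by rw [hT]; linarith
  rw [← hT]
  have h1 : (Icc 1 N).filter (fun m => ∃ l p p' : ℕ, l.Prime ∧ y < l ∧ p.Prime ∧ p'.Prime ∧ p ≠ p' ∧ p ∣ m ∧ p' ∣ m ∧
      l ∣ p - 1 ∧ l ∣ p' - 1) ⊆ ((Ioc y (N + y)).filter Nat.Prime).biUnion (fun l => (PL N l ×ˢ PL N l).biUnion (fun z =>
        (Icc 1 N).filter (fun m => z.1 * z.2 ∣ m))) := by
    intro m hm
    rw [mem_filter, mem_Icc] at hm
    obtain ⟨⟨e1, e2⟩, l, p, p', hl, hyl, hp, hp', hne, hd, hd', h3, h4⟩ := hm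
    have e3 : p ≤ N := (Nat.le_of_dvd (by omega) hd).trans e2
    have e4 : p' ≤ N := (Nat.le_of_dvd (by omega) hd').trans e2
    have e5 : l ≤ p - 1 := Nat.le_of_dvd (by have := hp.two_le; omega) h3
    rw [mem_biUnion]
    refine ⟨l, ?_, ?_⟩
    · rw [mem_filter, mem_Ioc]
      exact ⟨⟨hyl, by omega⟩, hl⟩
    · rw [mem_biUnion]
      refine ⟨(p, p'), ?_, ?_⟩
      · rw [mem_product, PL, mem_filter, mem_Icc, mem_filter, mem_Icc]
        exact ⟨⟨⟨hp.pos, e3⟩, hp, h3⟩, ⟨hp'.pos, e4⟩, hp', h4⟩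
      · rw [mem_filter, mem_Icc]
        refine ⟨⟨e1, e2⟩, ?_⟩
        exact Nat.Coprime.mul_dvd_of_dvd_of_dvd ((Nat.coprime_primes hp hp').2 hne) hd hd'
  have h2 : ∀ l ∈ (Ioc y (N + y)).filter Nat.Prime,
      (((PL N l ×ˢ PL N l).biUnion (fun z => (Icc 1 N).filter (fun m => z.1 * z.2 ∣ m))).card : ℝ) ≤
        N * (C ^ 2 * T ^ 2) * (1 / (l : ℝ)) ^ 2 := by
    intro l hl
    rw [mem_filter, mem_Ioc] at hl
    have hl0 : (0 : ℝ) < l := by exact_mod_cast hl.2.pos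
    have e1 : (((PL N l ×ˢ PL N l).biUnion (fun z => (Icc 1 N).filter (fun m => z.1 * z.2 ∣ m))).card : ℝ) ≤
        ∑ z ∈ PL N l ×ˢ PL N l, (((Icc 1 N).filter (fun m => z.1 * z.2 ∣ m)).card : ℝ) := by
      exact_mod_cast card_biUnion_le
    have e2 : ∑ z ∈ PL N l ×ˢ PL N l, (((Icc 1 N).filter (fun m => z.1 * z.2 ∣ m)).card : ℝ) ≤
        ∑ z ∈ PL N l ×ˢ PL N l, (N : ℝ) * ((1 / (z.1 : ℝ)) * (1 / (z.2 : ℝ))) := by
      apply sum_le_sum
      intro z _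
      refine (card_dvd_le N (z.1 * z.2)).trans (le_of_eq ?_)
      rw [one_div_mul_one_div]
      push_cast
      rfl
    have e3 : ∑ z ∈ PL N l ×ˢ PL N l, (N : ℝ) * ((1 / (z.1 : ℝ)) * (1 / (z.2 : ℝ))) =
        N * (∑ p ∈ PL N l, (1 / (p : ℝ))) ^ 2 := by
      rw [← mul_sum, pow_two, sum_mul_sum, sum_product]
    have e4 := hC N l hl.2 hN
    rw [← hT] at e4
    have e5 : 0 ≤ ∑ p ∈ PL N l, (1 / (p : ℝ)) := sum_nonneg fun _ _ => by positivity
    have e6 : (∑ p ∈ PL N l, (1 / (p : ℝ))) ^ 2 ≤ (C * T / l) ^ 2 := pow_le_pow_left₀ e5 e4 2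
    refine e1.trans (e2.trans ?_)
    rw [e3]
    calc (N : ℝ) * (∑ p ∈ PL N l, (1 / (p : ℝ))) ^ 2 ≤ N * (C * T / l) ^ 2 :=
          mul_le_mul_of_nonneg_left e6 (by linarith)
      _ = N * (C ^ 2 * T ^ 2) * (1 / (l : ℝ)) ^ 2 := by ring
  have h3 : (((Icc 1 N).filter (fun m => ∃ l p p' : ℕ, l.Prime ∧ y < l ∧ p.Prime ∧ p'.Prime ∧ p ≠ p' ∧ p ∣ m ∧ p' ∣ m ∧
      l ∣ p - 1 ∧ l ∣ p' - 1)).card : ℝ) ≤ ∑ l ∈ (Ioc y (N + y)).filter Nat.Prime,
        (((PL N l ×ˢ PL N l).biUnion (fun z => (Icc 1 N).filter (fun m => z.1 * z.2 ∣ m))).card : ℝ) := by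
    have := (card_le_card h1).trans card_biUnion_le
    exact_mod_cast this
  refine h3.trans ((sum_le_sum h2).trans ?_)
  rw [← mul_sum]
  have h4 : ∑ l ∈ (Ioc y (N + y)).filter Nat.Prime, (1 / (l : ℝ)) ^ 2 ≤ 1 / (y : ℝ) := by
    refine le_trans ?_ (tail_sq y N hy)
    apply sum_le_sum_of_subset_of_nonneg (filter_subset _ _)
    intro l _ _
    positivity
  calc (N : ℝ) * (C ^ 2 * T ^ 2) * ∑ l ∈ (Ioc y (N + y)).filter Nat.Prime, (1 / (l : ℝ)) ^ 2 ≤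
      N * (C ^ 2 * T ^ 2) * (1 / y) := mul_le_mul_of_nonneg_left h4 (by positivity)
    _ = N * (C ^ 2 * T ^ 2 / y) := by ring

/-- `p - 1` with a large smooth part -/
lemma bad3 (N y : ℕ) (G R : ℝ)
    (hR : ∑ d ∈ (Icc 1 N).filter (fun d => (∀ p : ℕ, p.Prime → p ∣ d → p ≤ y) ∧ G < (d : ℝ)), (1 / (d : ℝ)) ≤ R) :
    (((Icc 1 N).filter (fun m => ∃ p : ℕ, p.Prime ∧ p ∣ m ∧ G < (sp y (p - 1) : ℝ))).card : ℝ) ≤
      N * ((1 + Real.log N) * R) := by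
  have h1 : (Icc 1 N).filter (fun m => ∃ p : ℕ, p.Prime ∧ p ∣ m ∧ G < (sp y (p - 1) : ℝ)) ⊆
      ((Icc 1 N).filter (fun n => G < (sp y n : ℝ))).biUnion (fun n => (Icc 1 N).filter (fun m => n + 1 ∣ m)) := by
    intro m hm
    rw [mem_filter, mem_Icc] at hm
    obtain ⟨⟨e1, e2⟩, p, hp, hd, h3⟩ := hm
    have e3 : p ≤ N := (Nat.le_of_dvd (by omega) hd).trans e2
    have e4 := hp.two_le
    rw [mem_biUnion]
    refine ⟨p - 1, ?_, ?_⟩
    · rw [mem_filter, mem_Icc]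
      exact ⟨by omega, h3⟩
    · rw [mem_filter, mem_Icc]
      refine ⟨⟨e1, e2⟩, ?_⟩
      rwa [Nat.sub_add_cancel (by omega)]
  have hN0 : (0 : ℝ) ≤ N := Nat.cast_nonneg _
  have h2 : (((Icc 1 N).filter (fun m => ∃ p : ℕ, p.Prime ∧ p ∣ m ∧ G < (sp y (p - 1) : ℝ))).card : ℝ) ≤
      ∑ n ∈ (Icc 1 N).filter (fun n => G < (sp y n : ℝ)), (N : ℝ) * (1 / (n : ℝ)) := by
    have e1 : (((Icc 1 N).filter (fun m => ∃ p : ℕ, p.Prime ∧ p ∣ m ∧ G < (sp y (p - 1) : ℝ))).card : ℝ) ≤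
        ∑ n ∈ (Icc 1 N).filter (fun n => G < (sp y n : ℝ)), (((Icc 1 N).filter (fun m => n + 1 ∣ m)).card : ℝ) := by
      have := (card_le_card h1).trans card_biUnion_le
      exact_mod_cast this
    refine e1.trans (sum_le_sum ?_)
    intro n hn
    rw [mem_filter, mem_Icc] at hn
    refine (card_dvd_le N (n + 1)).trans ?_
    apply mul_le_mul_of_nonneg_left _ hN0
    have e2 : (0 : ℝ) < n := by exact_mod_cast hn.1.1
    apply one_div_le_one_div_of_le e2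
    push_cast
    linarith
  refine h2.trans ?_
  rw [← mul_sum]
  apply mul_le_mul_of_nonneg_left _ hN0
  -- write `n = sp * rp`
  obtain ⟨S, hS⟩ : ∃ S, S = (Icc 1 N).filter (fun d => (∀ p : ℕ, p.Prime → p ∣ d → p ≤ y) ∧ G < (d : ℝ)) := ⟨_, rfl⟩
  rw [← hS] at hR
  have h3 : ∑ n ∈ (Icc 1 N).filter (fun n => G < (sp y n : ℝ)), (1 / (n : ℝ)) ≤
      ∑ z ∈ S ×ˢ Icc 1 N, (1 / (z.1 : ℝ)) * (1 / (z.2 : ℝ)) := by
    have e1 : ∑ n ∈ (Icc 1 N).filter (fun n => G < (sp y n : ℝ)), (1 / (n : ℝ)) =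
        ∑ z ∈ ((Icc 1 N).filter (fun n => G < (sp y n : ℝ))).image (fun n => (sp y n, rp y n)),
          (1 / (z.1 : ℝ)) * (1 / (z.2 : ℝ)) := by
      rw [sum_image]
      · apply sum_congr rfl
        intro n hn
        rw [mem_filter, mem_Icc] at hn
        have e2 := sp_mul_rp y n (by omega)
        simp only
        rw [one_div_mul_one_div]
        congr 1
        exact_mod_cast e2.symm
      · intro n hn n' hn' h
        have hn2 := (mem_filter.1 (mem_coe.1 hn)).1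
        have hn2' := (mem_filter.1 (mem_coe.1 hn')).1
        rw [mem_Icc] at hn2 hn2'
        have e2 := sp_mul_rp y n (by omega)
        have e3 := sp_mul_rp y n' (by omega)
        simp only [Prod.mk.injEq] at h
        rw [← e2, ← e3, h.1, h.2]
    rw [e1]
    apply sum_le_sum_of_subset_of_nonneg
    · intro z hz
      rw [mem_image] at hz
      obtain ⟨n, hn, rfl⟩ := hz
      rw [mem_filter, mem_Icc] at hn
      have e2 := sp_mul_rp y n (by omega)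
      have e3 := sp_pos y n
      have e4 := rp_pos y n
      have e5 : sp y n ≤ n := by
        conv_rhs => rw [← e2]
        exact Nat.le_mul_of_pos_right _ e4
      have e6 : rp y n ≤ n := by
        conv_rhs => rw [← e2]
        exact Nat.le_mul_of_pos_left _ e3
      rw [mem_product, hS, mem_filter, mem_Icc, mem_Icc]
      exact ⟨⟨⟨e3, e5.trans hn.1.2⟩, fun p hp hd => le_of_dvd_sp hp hd, hn.2⟩, e4, e6.trans hn.1.2⟩
    · intro z _ _
      positivity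
  have h4 : ∑ z ∈ S ×ˢ Icc 1 N, (1 / (z.1 : ℝ)) * (1 / (z.2 : ℝ)) =
      (∑ d ∈ S, (1 / (d : ℝ))) * ∑ e ∈ Icc 1 N, (1 / (e : ℝ)) := by
    rw [sum_mul_sum, sum_product]
  rw [h4] at h3
  refine h3.trans ?_
  rw [mul_comm]
  have h5 := harm_le N
  have h6 : 0 ≤ ∑ e ∈ Icc 1 N, (1 / (e : ℝ)) := sum_nonneg fun _ _ => by positivity
  have h7 : 0 ≤ ∑ d ∈ S, (1 / (d : ℝ)) := sum_nonneg fun _ _ => by positivity
  exact mul_le_mul h5 hR h7 (h6.trans h5)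

/-- primes dividing the Carmichael function -/
lemma prime_dvd_car {l q : ℕ} (hq : q ≠ 0) (hl : l.Prime) (h : l ∣ ArithmeticFunction.carmichael q) :
    l ^ 2 ∣ q ∨ ∃ p : ℕ, p.Prime ∧ p ∣ q ∧ l ∣ p - 1 := by
  have h1 : l ∣ q.totient := h.trans (ArithmeticFunction.carmichael_dvd_totient q)
  by_cases h2 : ∃ p ∈ q.primeFactors, l ∣ p - 1
  · obtain ⟨p, hp, hd⟩ := h2
    exact Or.inr ⟨p, Nat.prime_of_mem_primeFactors hp, Nat.dvd_of_mem_primeFactors hp, hd⟩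
  · left
    have h3 := Nat.totient_mul_prod_primeFactors q
    have h4 : Nat.Coprime l (∏ p ∈ q.primeFactors, (p - 1)) := by
      rw [hl.coprime_iff_not_dvd]
      intro h5
      obtain ⟨p, hp, hd⟩ := (Prime.dvd_finsetProd_iff hl.prime _).1 h5
      exact h2 ⟨p, hp, hd⟩
    have h5 : l ∣ q := by
      have : l ∣ q * ∏ p ∈ q.primeFactors, (p - 1) := by
        rw [← h3]
        exact h1.mul_right _
      exact h4.dvd_of_dvd_mul_right this
    have h6 : l ∣ ∏ p ∈ q.primeFactors, p :=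
      dvd_prod_of_mem (fun p => p) (Nat.mem_primeFactors.2 ⟨hl, h5, hq⟩)
    have h7 : l ^ 2 ∣ q * ∏ p ∈ q.primeFactors, (p - 1) := by
      rw [← h3, pow_two]
      exact mul_dvd_mul h1 h6
    exact (Nat.Coprime.pow_left 2 h4).dvd_of_dvd_mul_right h7

end Pool.Agent.N756.CF
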