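import Mathlib

set_option autoImplicit false

/-! Harmonic sums over smooth numbers (method of Rankin). -/

namespace Pool.Agent.N756.CF

open Finset Classical

/-- the function `n ^ (-3/4)` -/
noncomputable def h34 : ℕ →* ℝ where
  toFun n := (n : ℝ) ^ (-(3 / 4) : ℝ)
  map_one' := by
    rw [Nat.cast_one, Real.one_rpow]
  map_mul' m n := by
    rw [Nat.cast_mul, Real.mul_rpow (Nat.cast_nonneg _) (Nat.cast_nonneg _)]

lemma h34_apply (n : ℕ) : h34 n = (n : ℝ) ^ (-(3 / 4) : ℝ) := rfl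

lemma h34_nonneg (n : ℕ) : 0 ≤ h34 n := by
  rw [h34_apply]
  positivity

lemma h34_prime {p : ℕ} (hp : p.Prime) : h34 p ≤ 6 / 10 := by
  have hp2 : (2 : ℝ) ≤ p := by exact_mod_cast hp.two_le
  have h1 : h34 p ^ 4 ≤ 1 / 8 := by
    rw [h34_apply, ← Real.rpow_natCast, ← Real.rpow_mul (by linarith)]
    rw [show (-(3 / 4) : ℝ) * ((4 : ℕ) : ℝ) = -((3 : ℕ) : ℝ) by norm_num, Real.rpow_neg (by linarith),
      Real.rpow_natCast, inv_eq_one_div]
    apply one_div_le_one_div_of_le (by norm_num)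
    calc (8 : ℝ) = 2 ^ 3 := by norm_num
      _ ≤ (p : ℝ) ^ 3 := pow_le_pow_left₀ (by norm_num) hp2 3
  by_contra h
  push Not at h
  have h2 : (6 / 10 : ℝ) ^ 4 < h34 p ^ 4 := pow_lt_pow_left₀ h (by norm_num) (by norm_num)
  norm_num at h2
  linarith

lemma sum_h34 (y : ℕ) : ∑ n ∈ Icc 1 y, h34 n ≤ 4 * (y : ℝ) ^ (1 / 4 : ℝ) := by
  induction y with
  | zero => simp
  | succ n ih =>
    rw [sum_Icc_succ_top (by omega)]
    obtain ⟨a, ha⟩ : ∃ a : ℝ, a = (n : ℝ) ^ (1 / 4 : ℝ) := ⟨_, rfl⟩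
    obtain ⟨b, hb⟩ : ∃ b : ℝ, b = ((n + 1 : ℕ) : ℝ) ^ (1 / 4 : ℝ) := ⟨_, rfl⟩
    have ha0 : 0 ≤ a := by rw [ha]; positivity
    have hb0 : 0 < b := by rw [hb]; positivity
    have ha4 : a ^ 4 = n := by
      rw [ha, ← Real.rpow_natCast, ← Real.rpow_mul (Nat.cast_nonneg _)]
      norm_num
    have hb4 : b ^ 4 = n + 1 := by
      rw [hb, ← Real.rpow_natCast, ← Real.rpow_mul (Nat.cast_nonneg _)]
      norm_num
    have hab : a ≤ b := by
      rw [ha, hb]
      apply Real.rpow_le_rpow (Nat.cast_nonneg _) _ (by norm_num)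
      push_cast
      linarith
    have h3 : h34 (n + 1) = 1 / b ^ 3 := by
      rw [h34_apply, hb, ← Real.rpow_natCast, ← Real.rpow_mul (Nat.cast_nonneg _), one_div,
        ← Real.rpow_neg (Nat.cast_nonneg _)]
      norm_num
    have h4 : 1 / b ^ 3 ≤ 4 * (b - a) := by
      rw [div_le_iff₀ (by positivity)]
      have e1 : (b - a) * (b ^ 3 + b ^ 2 * a + b * a ^ 2 + a ^ 3) = 1 := by
        have : (b - a) * (b ^ 3 + b ^ 2 * a + b * a ^ 2 + a ^ 3) = b ^ 4 - a ^ 4 := by ring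
        rw [this, ha4, hb4]
        ring
      have e2 : b ^ 3 + b ^ 2 * a + b * a ^ 2 + a ^ 3 ≤ 4 * b ^ 3 := by
        have f1 : b ^ 2 * a ≤ b ^ 2 * b := mul_le_mul_of_nonneg_left hab (by positivity)
        have f2 : b * a ^ 2 ≤ b * b ^ 2 := mul_le_mul_of_nonneg_left (pow_le_pow_left₀ ha0 hab 2) hb0.le
        have f3 : a ^ 3 ≤ b ^ 3 := pow_le_pow_left₀ ha0 hab 3
        nlinarith
      have e3 : 0 ≤ b - a := by linarith
      nlinarith [mul_le_mul_of_nonneg_left e2 e3]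
    rw [h3, ← hb]
    rw [← ha] at ih
    linarith

lemma inv_le_exp {t : ℝ} (h0 : 0 ≤ t) (h1 : t ≤ 6 / 10) : (1 - t)⁻¹ ≤ Real.exp (5 / 2 * t) := by
  have h2 : (1 - t)⁻¹ ≤ 1 + 5 / 2 * t := by
    rw [inv_le_iff_one_le_mul₀ (by linarith)]
    nlinarith
  have := Real.add_one_le_exp (5 / 2 * t)
  linarith

/-- the method of Rankin -/
lemma rankin (N y : ℕ) (G : ℝ) (hG : 0 < G) :
    ∑ d ∈ (Icc 1 N).filter (fun d => (∀ p : ℕ, p.Prime → p ∣ d → p ≤ y) ∧ G < (d : ℝ)), (1 / (d : ℝ)) ≤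
      G ^ (-(1 / 4) : ℝ) * Real.exp (10 * (y : ℝ) ^ (1 / 4 : ℝ)) := by
  obtain ⟨S, hS⟩ : ∃ S, S = (Icc 1 N).filter (fun d => (∀ p : ℕ, p.Prime → p ∣ d → p ≤ y) ∧ G < (d : ℝ)) := ⟨_, rfl⟩
  rw [← hS]
  have h1 : ∑ d ∈ S, (1 / (d : ℝ)) ≤ ∑ d ∈ S, G ^ (-(1 / 4) : ℝ) * h34 d := by
    apply sum_le_sum
    intro d hd
    rw [hS, mem_filter, mem_Icc] at hd
    have hd0 : (0 : ℝ) < d := by linarith [hd.2.2]
    have e1 : (1 / (d : ℝ)) = (d : ℝ) ^ (-(1 / 4) : ℝ) * h34 d := by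
      rw [h34_apply, ← Real.rpow_add hd0, show (-(1 / 4) : ℝ) + -(3 / 4) = -1 by norm_num, Real.rpow_neg_one, one_div]
    rw [e1]
    apply mul_le_mul_of_nonneg_right _ (h34_nonneg d)
    exact Real.rpow_le_rpow_of_nonpos hG hd.2.2.le (by norm_num)
  refine h1.trans ?_
  rw [← mul_sum]
  apply mul_le_mul_of_nonneg_left _ (by positivity)
  have hlt : ∀ {p : ℕ}, p.Prime → ‖h34 p‖ < 1 := by
    intro p hp
    rw [Real.norm_of_nonneg (h34_nonneg p)]
    have := h34_prime hp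
    linarith
  have h2 := (EulerProduct.summable_and_hasSum_smoothNumbers_prod_primesBelow_geometric (f := h34) (fun {p} hp => hlt hp) (y + 1)).2
  have h3 : HasSum (Set.indicator (Nat.smoothNumbers (y + 1)) (fun n : ℕ => h34 n))
      (∏ p ∈ (y + 1).primesBelow, (1 - h34 p)⁻¹) := by
    rw [← hasSum_subtype_iff_indicator]
    exact h2
  have h4 : ∑ d ∈ S, h34 d ≤ ∏ p ∈ (y + 1).primesBelow, (1 - h34 p)⁻¹ := by
    have h5 : ∑ d ∈ S, h34 d = ∑ d ∈ S, Set.indicator (Nat.smoothNumbers (y + 1)) (fun n : ℕ => h34 n) d := by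
      apply sum_congr rfl
      intro d hd
      rw [hS, mem_filter, mem_Icc] at hd
      rw [Set.indicator_of_mem]
      rw [Nat.mem_smoothNumbers']
      intro p hp hpd
      have := hd.2.1 p hp hpd
      omega
    rw [h5]
    apply sum_le_hasSum _ _ h3
    intro d _
    apply Set.indicator_nonneg
    intro n _
    exact h34_nonneg n
  refine h4.trans ?_
  have h5 : ∏ p ∈ (y + 1).primesBelow, (1 - h34 p)⁻¹ ≤ ∏ p ∈ (y + 1).primesBelow, Real.exp (5 / 2 * h34 p) := by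
    apply prod_le_prod
    · intro p hp
      have := h34_prime (Nat.prime_of_mem_primesBelow hp)
      exact inv_nonneg.2 (by linarith)
    · intro p hp
      exact inv_le_exp (h34_nonneg p) (h34_prime (Nat.prime_of_mem_primesBelow hp))
  refine h5.trans ?_
  rw [← Real.exp_sum]
  apply Real.exp_le_exp.2
  rw [← mul_sum]
  have h6 : ∑ p ∈ (y + 1).primesBelow, h34 p ≤ ∑ n ∈ Icc 1 y, h34 n := by
    apply sum_le_sum_of_subset_of_nonneg
    · intro p hp
      rw [mem_Icc]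
      have e1 := Nat.prime_of_mem_primesBelow hp
      have e2 := Nat.lt_of_mem_primesBelow hp
      exact ⟨e1.pos, by omega⟩
    · intro n _ _
      exact h34_nonneg n
  have h7 := sum_h34 y
  linarith

end Pool.Agent.N756.CF
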