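import Mathlib
import Pool.Agent.N756.CF.B
import Pool.Agent.N756.CF.C

set_option autoImplicit false

/-! Few rough numbers `u` for which the value `lcm (λ q) (λ u) + a` is exceptional. -/

namespace Pool.Agent.N756.CF

open Finset Classical
open Pool.Agent.N733.TG (sp rp sp_mul_rp sp_pos rp_pos le_of_dvd_sp lt_of_dvd_rp coprime_sp_rp few_large few_square
  Rough EB omega_le card_small_subsets cauchy_card y_facts)

/-- the function of Carmichael -/
abbrev car (n : ℕ) : ℕ := ArithmeticFunction.carmichael n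

lemma car_pos {n : ℕ} (hn : 1 ≤ n) : 1 ≤ car n := by
  rcases Nat.eq_zero_or_pos (car n) with h | h
  · exfalso
    have h1 := ArithmeticFunction.carmichael_dvd_totient n
    rw [show ArithmeticFunction.carmichael n = 0 from h, zero_dvd_iff] at h1
    have := Nat.totient_pos.2 (show 0 < n by omega)
    omega
  · exact h

lemma car_le {n : ℕ} (hn : 1 ≤ n) : car n ≤ n :=
  (Nat.le_of_dvd (Nat.totient_pos.2 hn) (ArithmeticFunction.carmichael_dvd_totient n)).trans (Nat.totient_le n)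

lemma car_prime {p : ℕ} (hp : p.Prime) (h2 : p ≠ 2) : car p = p - 1 := by
  have h := ArithmeticFunction.carmichael_pow_of_prime_ne_two 1 hp h2
  rw [pow_one] at h
  rw [show car p = ArithmeticFunction.carmichael p from rfl, h, Nat.totient_prime hp]

/-- few preimages -/
lemma fiber2 (K w G J : ℕ) (hK : 1 ≤ K) (hw : 1 ≤ w) (U : Finset ℕ) (h1 : ∀ u ∈ U, Squarefree u)
    (h3 : ∀ u ∈ U, u.primeFactors.card ≤ J)
    (h4 : ∀ u ∈ U, ∀ p ∈ u.primeFactors, p - 1 ∣ K * w ∧ Nat.gcd (p - 1) K ≤ G) :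
    U.card ≤ (G * w.divisors.card + 1) ^ J := by
  obtain ⟨D, hD⟩ : ∃ D, D = ((Icc 1 G) ×ˢ w.divisors).image (fun z : ℕ × ℕ => z.1 * z.2 + 1) := ⟨_, rfl⟩
  have hDc : D.card ≤ G * w.divisors.card := by
    rw [hD]
    refine card_image_le.trans (le_of_eq ?_)
    rw [card_product, Nat.card_Icc, Nat.add_sub_cancel]
  refine le_trans ?_ (Nat.pow_le_pow_left (Nat.add_le_add_right hDc 1) J)
  refine le_trans ?_ (card_small_subsets D J)
  apply card_le_card_of_injOn (fun u => u.primeFactors)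
  · intro u hu
    rw [mem_coe] at hu
    rw [mem_coe, mem_filter, mem_powerset]
    refine ⟨?_, h3 u hu⟩
    intro p hp
    have hp' := Nat.prime_of_mem_primeFactors hp
    obtain ⟨e1, e2⟩ := h4 u hu p hp
    have hg : 0 < Nat.gcd (p - 1) K := Nat.gcd_pos_of_pos_right _ (by omega)
    obtain ⟨g, hgg⟩ : ∃ g, g = Nat.gcd (p - 1) K := ⟨_, rfl⟩
    obtain ⟨t, ht⟩ : ∃ t, t = (p - 1) / g := ⟨_, rfl⟩
    obtain ⟨k, hk⟩ : ∃ k, k = K / g := ⟨_, rfl⟩
    have e3 : g * t = p - 1 := by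
      rw [ht, hgg]
      exact Nat.mul_div_cancel' (Nat.gcd_dvd_left _ _)
    have e4 : g * k = K := by
      rw [hk, hgg]
      exact Nat.mul_div_cancel' (Nat.gcd_dvd_right _ _)
    have e5 : Nat.Coprime t k := by
      rw [ht, hk, hgg]
      exact Nat.coprime_div_gcd_div_gcd hg
    have e6 : t ∣ w := by
      have : g * t ∣ g * (k * w) := by
        rw [e3, ← mul_assoc, e4]
        exact e1
      have := Nat.dvd_of_mul_dvd_mul_left (by omega) this
      exact e5.dvd_of_dvd_mul_left this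
    rw [hD, mem_image]
    refine ⟨(g, t), ?_, ?_⟩
    · rw [mem_product, mem_Icc, Nat.mem_divisors]
      exact ⟨⟨by omega, by omega⟩, e6, by omega⟩
    · simp only
      rw [e3]
      have := hp'.pos
      omega
  · intro u hu w' hw' huw
    rw [mem_coe] at hu hw'
    simp only at huw
    rw [← Nat.prod_primeFactors_of_squarefree (h1 u hu), ← Nat.prod_primeFactors_of_squarefree (h1 w' hw'), huw]

/-- the exceptional `u` -/
noncomputable def UU2 (a : ℤ) (Good : ℕ → Prop) (z q G y : ℕ) : Finset ℕ :=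
  (Icc 1 y).filter (fun u => Squarefree u ∧ Rough z u ∧
    (∀ p : ℕ, p.Prime → p ∣ u → Nat.gcd (p - 1) (car q) ≤ G) ∧ 0 < (Nat.lcm (car q) (car u) : ℤ) + a ∧
    ¬ Good ((Nat.lcm (car q) (car u) : ℤ) + a).toNat)

theorem Uk2 (a : ℤ) (Good : ℕ → Prop) (J : ℕ)
    (hE : ∀ A, EB a Good A) : ∃ N₀ : ℕ, ∀ N : ℕ, N₀ ≤ N → ∀ z q G y : ℕ, N < (z + 1) ^ (J + 1) → 1 ≤ q →
      y ≤ N → q ≤ y → N ≤ y ^ 2 → 1 ≤ G → (G : ℝ) ≤ Real.log N ^ 16 →
      ((UU2 a Good z q G y).card : ℝ) ≤ y / Real.log N ^ 2 := by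
  obtain ⟨B, hB⟩ : ∃ B, B = 2 ^ (J * 2) := ⟨_, rfl⟩
  obtain ⟨A, hA⟩ : ∃ A, A = B + 32 * J + 6 := ⟨_, rfl⟩
  obtain ⟨X₀, hX₀⟩ := hE A
  obtain ⟨Kc, hKc⟩ : ∃ Kc : ℝ, Kc = 4 ^ J * (4 * (2 * 2 ^ A * 3 ^ B)) := ⟨_, rfl⟩
  have hlog := (Real.tendsto_log_atTop.comp (tendsto_natCast_atTop_atTop (R := ℝ))).eventually_ge_atTop (4 * Kc + 4)
  rw [Filter.eventually_atTop] at hlog
  obtain ⟨n1, hn1⟩ := hlog
  obtain ⟨n2, hn2⟩ := exists_nat_gt (max X₀ 1)
  refine ⟨max n1 (max (n2 ^ 2) (max (a.natAbs ^ 2) 3)), fun N hN z q G y hz hk hyN hq hy hG1 hG => ?_⟩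
  have b1 : n1 ≤ N := le_trans (le_max_left _ _) hN
  have b2 : n2 ^ 2 ≤ N := le_trans (le_trans (le_max_left _ _) (le_max_right _ _)) hN
  have b4 : a.natAbs ^ 2 ≤ N := le_trans (le_trans (le_trans (le_max_left _ _) (le_max_right _ _)) (le_max_right _ _)) hN
  have b5 : 3 ≤ N := le_trans (le_trans (le_trans (le_max_right _ _) (le_max_right _ _)) (le_max_right _ _)) hN
  have hay : a.natAbs ≤ y := by
    have : a.natAbs ^ 2 ≤ y ^ 2 := b4.trans hy
    exact (Nat.pow_le_pow_iff_left (by norm_num)).1 this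
  have hn2y : n2 ≤ y := (Nat.pow_le_pow_iff_left (by norm_num)).1 (b2.trans hy)
  have hX₀y : X₀ ≤ y := by
    have h1 : (n2 : ℝ) ≤ y := by exact_mod_cast hn2y
    linarith [le_max_left X₀ 1]
  have hy1 : (1 : ℝ) ≤ y := by
    have h1 : (n2 : ℝ) ≤ y := by exact_mod_cast hn2y
    linarith [le_max_right X₀ 1]
  obtain ⟨K, hK⟩ : ∃ K, K = car q := ⟨_, rfl⟩
  have hfk : 1 ≤ K := by rw [hK]; exact car_pos hk
  have hKy : K ≤ y := by rw [hK]; exact (car_le hk).trans hq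
  have hfk' : (1 : ℝ) ≤ K := by exact_mod_cast hfk
  -- the set of values
  obtain ⟨U, hU⟩ : ∃ U, U = UU2 a Good z q G y := ⟨_, rfl⟩
  have hUm : ∀ u ∈ U, 1 ≤ u ∧ u ≤ y ∧ Squarefree u ∧ Rough z u ∧
      (∀ p : ℕ, p.Prime → p ∣ u → Nat.gcd (p - 1) K ≤ G) ∧ 0 < (Nat.lcm K (car u) : ℤ) + a ∧
      ¬ Good ((Nat.lcm K (car u) : ℤ) + a).toNat := by
    intro u hu
    rw [hU, UU2, mem_filter, mem_Icc, ← hK] at hu
    exact ⟨hu.1.1, hu.1.2, hu.2⟩
  have hom : ∀ u ∈ U, u.primeFactors.card ≤ J := by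
    intro u hu
    obtain ⟨h1, h2, h3, h4, h5, h6⟩ := hUm u hu
    exact omega_le hz h4 h1 (h2.trans hyN)
  obtain ⟨wf, hwf⟩ : ∃ wf : ℕ → ℕ, wf = fun u => Nat.lcm K (car u) / K := ⟨_, rfl⟩
  have hwm : ∀ u, K * wf u = Nat.lcm K (car u) := by
    intro u
    rw [hwf]
    exact Nat.mul_div_cancel' (Nat.dvd_lcm_left _ _)
  have hw1 : ∀ u ∈ U, 1 ≤ wf u ∧ wf u ≤ y := by
    intro u hu
    obtain ⟨h1, h2, _⟩ := hUm u hu
    have e1 := hwm u
    have e2 : 0 < Nat.lcm K (car u) := Nat.lcm_pos (by omega) (car_pos h1)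
    have e3 : Nat.lcm K (car u) ≤ K * car u := Nat.le_of_dvd (Nat.mul_pos (by omega) (car_pos h1)) (Nat.lcm_dvd_mul _ _)
    refine ⟨?_, ?_⟩
    · rcases Nat.eq_zero_or_pos (wf u) with h | h
      · rw [h, mul_zero] at e1
        omega
      · exact h
    · rw [← e1] at e3
      have := Nat.le_of_mul_le_mul_left e3 (by omega)
      exact this.trans ((car_le h1).trans h2)
  obtain ⟨V, hV⟩ : ∃ V, V = U.image wf := ⟨_, rfl⟩
  have hVm : ∀ v ∈ V, 1 ≤ v ∧ v ≤ 2 * y := by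
    intro v hv
    rw [hV, mem_image] at hv
    obtain ⟨u, hu, rfl⟩ := hv
    have := hw1 u hu
    omega
  -- the bound for V
  obtain ⟨X, hX⟩ : ∃ X : ℝ, X = K * (2 * y) + a.natAbs := ⟨_, rfl⟩
  have hyX : (y : ℝ) ≤ X := by
    rw [hX]
    have : (0 : ℝ) ≤ a.natAbs := Nat.cast_nonneg _
    nlinarith
  have hqX : (K : ℝ) ^ 2 ≤ X := by
    rw [hX]
    have h1 : (K : ℝ) ≤ y := by exact_mod_cast hKy
    have : (0 : ℝ) ≤ a.natAbs := Nat.cast_nonneg _
    nlinarith
  have hVc := hX₀ X (hX₀y.trans hyX) K hfk hqX V (by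
    intro v hv
    rw [hV, mem_image] at hv
    obtain ⟨u, hu, rfl⟩ := hv
    obtain ⟨h1, h2, h3, h4, h5, h6, h7⟩ := hUm u hu
    have e0 : (K : ℤ) * (wf u : ℤ) = (Nat.lcm K (car u) : ℤ) := by exact_mod_cast hwm u
    rw [e0]
    refine ⟨h6, ?_, h7⟩
    rw [← e0, hX]
    push_cast
    have e1 : (wf u : ℝ) ≤ 2 * y := by
      have : (wf u : ℝ) ≤ y := by exact_mod_cast (hw1 u hu).2
      linarith
    have e2 : (a : ℝ) ≤ (a.natAbs : ℝ) := by
      have : a ≤ (a.natAbs : ℤ) := Int.le_natAbs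
      calc (a : ℝ) ≤ (((a.natAbs : ℕ) : ℤ) : ℝ) := Int.cast_le.2 this
        _ = (a.natAbs : ℝ) := Int.cast_natCast _
    nlinarith)
  obtain ⟨L, hL⟩ : ∃ L, L = Real.log N := ⟨_, rfl⟩
  have hL4 : 4 * Kc + 4 ≤ L := by
    rw [hL]
    exact hn1 N b1
  have hKc0 : 0 ≤ Kc := by rw [hKc]; positivity
  have hLpos : 0 < L := by linarith
  have hlogX : L / 2 ≤ Real.log X := by
    have h1 : L ≤ 2 * Real.log y := by
      rw [hL, ← Real.log_rpow (by linarith)]
      apply Real.log_le_log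
      · exact_mod_cast (by omega : 0 < N)
      · have : (N : ℝ) ≤ (y : ℝ) ^ 2 := by exact_mod_cast hy
        rw [show (2 : ℝ) = ((2 : ℕ) : ℝ) by norm_num, Real.rpow_natCast]
        exact this
    have h2 : Real.log y ≤ Real.log X := Real.log_le_log (by linarith) hyX
    linarith
  have hVc2 : (V.card : ℝ) ≤ 3 * y * (2 ^ A / L ^ A) := by
    refine hVc.trans ?_
    have h1 : (L / 2) ^ A ≤ Real.log X ^ A := pow_le_pow_left₀ (by positivity) hlogX A
    have h2 : X ≤ K * (3 * y) := by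
      rw [hX]
      have : (a.natAbs : ℝ) ≤ y := by exact_mod_cast hay
      nlinarith
    calc X / (K * Real.log X ^ A) ≤ (K * (3 * y)) / (K * (L / 2) ^ A) := by
          apply div_le_div₀ (by positivity) h2 (by positivity)
          exact mul_le_mul_of_nonneg_left h1 (by linarith)
      _ = 3 * y * (2 ^ A / L ^ A) := by
          rw [div_pow]
          field_simp
  -- the fibres
  have hG0 : (0 : ℝ) ≤ G := Nat.cast_nonneg _
  have hfib : (U.card : ℝ) ≤ ∑ v ∈ V, (2 * (G : ℝ)) ^ J * (v.divisors.card : ℝ) ^ J := by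
    have h1 : U.card = ∑ v ∈ V, (U.filter (fun u => wf u = v)).card := by
      apply card_eq_sum_card_fiberwise
      intro u hu
      rw [hV, mem_coe, mem_image]
      exact ⟨u, hu, rfl⟩
    rw [h1]
    push_cast
    apply sum_le_sum
    intro v hv
    have h2 := fiber2 K v G J hfk (hVm v hv).1 (U.filter (fun u => wf u = v))
      (fun u hu => (hUm u (mem_filter.1 hu).1).2.2.1)
      (fun u hu => hom u (mem_filter.1 hu).1) (fun u hu p hp => by
        have f1 := (mem_filter.1 hu).1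
        have f2 := (mem_filter.1 hu).2
        have f3 := Nat.prime_of_mem_primeFactors hp
        have f4 := Nat.dvd_of_mem_primeFactors hp
        refine ⟨?_, (hUm u f1).2.2.2.2.1 p f3 f4⟩
        rw [← f2, hwm u]
        have f5 : p - 1 ∣ car p := by
          rcases eq_or_ne p 2 with h | h
          · rw [h]
            exact one_dvd _
          · rw [car_prime f3 h]
        exact f5.trans ((ArithmeticFunction.carmichael_dvd f4).trans (Nat.dvd_lcm_right _ _)))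
    have h3 : 1 ≤ v.divisors.card := by
      rw [Nat.one_le_iff_ne_zero, Finset.card_ne_zero]
      exact ⟨1, Nat.one_mem_divisors.2 (by have := (hVm v hv).1; omega)⟩
    have h4 : (G * v.divisors.card + 1) ^ J ≤ (2 * G * v.divisors.card) ^ J := by
      apply Nat.pow_le_pow_left
      have : 1 ≤ G * v.divisors.card := Nat.mul_pos hG1 h3
      calc G * v.divisors.card + 1 ≤ G * v.divisors.card + G * v.divisors.card := by omega
        _ = 2 * G * v.divisors.card := by ring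
    have h5 : (((U.filter (fun u => wf u = v)).card : ℕ) : ℝ) ≤ (((2 * G * v.divisors.card) ^ J : ℕ) : ℝ) := by
      exact_mod_cast h2.trans h4
    refine h5.trans (le_of_eq ?_)
    push_cast
    rw [mul_pow]
  have hGp : (2 * (G : ℝ)) ^ (J * 2) ≤ 4 ^ J * L ^ (32 * J) := by
    have e1 : (2 * (G : ℝ)) ^ (J * 2) ≤ (2 * L ^ 16) ^ (J * 2) := by
      apply pow_le_pow_left₀ (by positivity)
      rw [hL]
      linarith
    refine e1.trans (le_of_eq ?_)
    rw [mul_pow, ← pow_mul, mul_comm J 2, pow_mul]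
    norm_num
    rw [show 16 * (2 * J) = 32 * J by ring]
  have hmom : ∑ v ∈ V, ((2 * (G : ℝ)) ^ J * (v.divisors.card : ℝ) ^ J) ^ 2 ≤
      4 ^ J * L ^ (32 * J) * (2 * y * (3 * L) ^ B) := by
    have h1 := Pool.Agent.TH935.LD.tau_pow_sum (J * 2) (2 * y)
    have h2 : ∑ v ∈ V, ((2 * (G : ℝ)) ^ J * (v.divisors.card : ℝ) ^ J) ^ 2 =
        (2 * (G : ℝ)) ^ (J * 2) * ∑ v ∈ V, (v.divisors.card : ℝ) ^ (J * 2) := by
      rw [mul_sum]
      apply sum_congr rfl
      intro v _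
      rw [mul_pow, ← pow_mul, ← pow_mul]
    rw [h2]
    have h3 : ∑ v ∈ V, (v.divisors.card : ℝ) ^ (J * 2) ≤ ∑ v ∈ Icc 1 (2 * y), (v.divisors.card : ℝ) ^ (J * 2) := by
      apply sum_le_sum_of_subset_of_nonneg
      · intro v hv
        rw [mem_Icc]
        exact hVm v hv
      · intro v _ _
        positivity
    have h0 : 0 ≤ ∑ v ∈ V, (v.divisors.card : ℝ) ^ (J * 2) := sum_nonneg fun _ _ => by positivity
    apply mul_le_mul hGp _ h0 (by positivity)
    refine h3.trans (h1.trans ?_)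
    rw [← hB]
    push_cast
    apply mul_le_mul_of_nonneg_left _ (by linarith)
    apply pow_le_pow_left₀
    · have : 0 ≤ Real.log (2 * y) := Real.log_nonneg (by linarith)
      linarith
    · have h5 : Real.log (2 * y) ≤ Real.log 2 + L := by
        rw [Real.log_mul (by norm_num) (by linarith), hL]
        have : Real.log y ≤ Real.log N := Real.log_le_log (by linarith) (by exact_mod_cast hyN)
        linarith
      have := Real.log_two_lt_d9
      linarith
  have hfin := cauchy_card V (fun v => (2 * (G : ℝ)) ^ J * (v.divisors.card : ℝ) ^ J) _ hmom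
  have h7 : (U.card : ℝ) ^ 2 ≤ (3 * y * (2 ^ A / L ^ A)) * (4 ^ J * L ^ (32 * J) * (2 * y * (3 * L) ^ B)) := by
    calc (U.card : ℝ) ^ 2 ≤ (∑ v ∈ V, (2 * (G : ℝ)) ^ J * (v.divisors.card : ℝ) ^ J) ^ 2 :=
          pow_le_pow_left₀ (Nat.cast_nonneg _) hfib 2
      _ ≤ _ := hfin
      _ ≤ _ := mul_le_mul_of_nonneg_right hVc2 (by positivity)
  have h8 : (3 * (y : ℝ) * (2 ^ A / L ^ A)) * (4 ^ J * L ^ (32 * J) * (2 * y * (3 * L) ^ B)) ≤ (y / L ^ 2) ^ 2 := by
    have e1 : (3 * (y : ℝ) * (2 ^ A / L ^ A)) * (4 ^ J * L ^ (32 * J) * (2 * y * (3 * L) ^ B)) =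
        (3 * 4 ^ J * (2 * 2 ^ A * 3 ^ B)) * y ^ 2 / L ^ 6 := by
      have hLA : L ^ A = L ^ B * L ^ (32 * J) * L ^ 6 := by
        rw [hA, pow_add, pow_add]
      rw [mul_pow, hLA]
      field_simp
    rw [e1, div_pow, div_le_div_iff₀ (by positivity) (by positivity)]
    have e2 : 3 * 4 ^ J * (2 * 2 ^ A * 3 ^ B) ≤ Kc := by
      rw [hKc]
      have : (0 : ℝ) ≤ 4 ^ J * (2 * 2 ^ A * 3 ^ B) := by positivity
      nlinarith
    have e3 : Kc ≤ L ^ 2 := by nlinarith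
    calc 3 * 4 ^ J * (2 * 2 ^ A * 3 ^ B) * (y : ℝ) ^ 2 * (L ^ 2) ^ 2 ≤ L ^ 2 * (y : ℝ) ^ 2 * (L ^ 2) ^ 2 := by
          apply mul_le_mul_of_nonneg_right _ (by positivity)
          exact mul_le_mul_of_nonneg_right (e2.trans e3) (by positivity)
      _ = (y : ℝ) ^ 2 * L ^ 6 := by ring
  have h9 : (U.card : ℝ) ≤ y / L ^ 2 := by
    exact (pow_le_pow_iff_left₀ (Nat.cast_nonneg _) (by positivity) (by norm_num)).1 (h7.trans h8)
  rw [← hU, ← hL]
  exact h9

end Pool.Agent.N756.CF
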