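import Mathlib
import Pool.Agent.N756.CF.D

set_option autoImplicit false

/-! Almost all values `λ(m) + a` of the function of Carmichael are not exceptional. -/

namespace Pool.Agent.N756.CF

open Finset Classical
open Pool.Agent.N733.TG (sp rp sp_mul_rp sp_pos rp_pos le_of_dvd_sp lt_of_dvd_rp coprime_sp_rp few_large few_square
  Rough EB omega_le card_small_subsets cauchy_card y_facts)

lemma dvd_sp {y g n : ℕ} (hn : n ≠ 0) (hg : ∀ p : ℕ, p.Prime → p ∣ g → p ≤ y) (hd : g ∣ n) : g ∣ sp y n := by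
  have h1 := sp_mul_rp y n hn
  have h2 : Nat.Coprime g (rp y n) := by
    by_contra h
    obtain ⟨p, hp, e1, e2⟩ := Nat.Prime.not_coprime_iff_dvd.1 h
    have f1 := hg p hp e1
    have f2 := lt_of_dvd_rp hp e2
    omega
  rw [← h1] at hd
  exact h2.dvd_of_dvd_mul_right hd

/-- the common divisor is small -/
lemma gcd_small {N y0 z m : ℕ} {Gr : ℝ} (hm : m ∈ Icc 1 N)
    (h1 : m ∉ (Icc 1 N).filter (fun m => ∃ l p p' : ℕ, l.Prime ∧ y0 < l ∧ p.Prime ∧ p'.Prime ∧ p ≠ p' ∧ p ∣ m ∧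
      p' ∣ m ∧ l ∣ p - 1 ∧ l ∣ p' - 1))
    (h2 : m ∉ (Icc 1 N).filter (fun m => ∃ p : ℕ, p.Prime ∧ y0 < p ∧ p ^ 2 ∣ m))
    (h3 : m ∉ (Icc 1 N).filter (fun m => ∃ p : ℕ, p.Prime ∧ p ∣ m ∧ Gr < (sp y0 (p - 1) : ℝ)))
    (p : ℕ) (hp : p.Prime) (hpd : p ∣ rp z m) : Nat.gcd (p - 1) (car (sp z m)) ≤ ⌊Gr⌋₊ := by
  have hm1 : 1 ≤ m := (mem_Icc.1 hm).1
  have hmul := sp_mul_rp z m (by omega)
  have hpm : p ∣ m := by rw [← hmul]; exact hpd.mul_left _
  have hqm : sp z m ∣ m := by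
    conv_rhs => rw [← hmul]
    exact dvd_mul_right _ _
  have hz := lt_of_dvd_rp hp hpd
  have hp2 := hp.two_le
  rw [mem_filter, not_and] at h1 h2 h3
  have h1 := h1 hm
  have h2 := h2 hm
  have h3 := h3 hm
  have hsm : ∀ l : ℕ, l.Prime → l ∣ Nat.gcd (p - 1) (car (sp z m)) → l ≤ y0 := by
    intro l hl hd
    by_contra hcon
    push Not at hcon
    have e1 : l ∣ p - 1 := hd.trans (Nat.gcd_dvd_left _ _)
    have e2 : l ∣ car (sp z m) := hd.trans (Nat.gcd_dvd_right _ _)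
    rcases prime_dvd_car (by have := sp_pos z m; omega) hl e2 with e3 | ⟨p', hp', e3, e4⟩
    · exact h2 ⟨l, hl, hcon, e3.trans hqm⟩
    · apply h1
      refine ⟨l, p, p', hl, hcon, hp, hp', ?_, hpm, e3.trans hqm, e1, e4⟩
      rintro rfl
      have := le_of_dvd_sp hp' e3
      omega
  have h4 : Nat.gcd (p - 1) (car (sp z m)) ∣ sp y0 (p - 1) :=
    dvd_sp (by omega) hsm (Nat.gcd_dvd_left _ _)
  have h5 := Nat.le_of_dvd (sp_pos _ _) h4
  apply Nat.le_floor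
  have h6 : (sp y0 (p - 1) : ℝ) ≤ Gr := by
    by_contra h
    push Not at h
    exact h3 ⟨p, hp, hpm, h⟩
  have h7 : ((Nat.gcd (p - 1) (car (sp z m)) : ℕ) : ℝ) ≤ (sp y0 (p - 1) : ℝ) := by exact_mod_cast h5
  exact h7.trans h6

theorem dens2 (a : ℤ) (Good : ℕ → Prop) (hE : ∀ A, EB a Good A)
    (ε : ℝ) (hε : 0 < ε) : ∃ N₀ : ℕ, ∀ N : ℕ, N₀ ≤ N →
      (((Icc 1 N).filter (fun m => ¬ (0 < (car m : ℤ) + a ∧ Good ((car m : ℤ) + a).toNat))).card : ℝ) ≤ ε * N := by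
  obtain ⟨C1, hC10, hC1⟩ := few_large
  obtain ⟨C2, hC21, hC2⟩ := bad1
  obtain ⟨E, hEE⟩ : ∃ E : ℕ, E = 3 := ⟨_, rfl⟩
  have hE3 : (3 : ℝ) ≤ E := by
    rw [hEE]; norm_num
  obtain ⟨J, hJ⟩ := exists_nat_gt (32 * E / ε)
  obtain ⟨NU, hNU⟩ := Uk2 a Good J hE
  have hlogt := Real.tendsto_log_atTop.comp (tendsto_natCast_atTop_atTop (R := ℝ))
  have hlog := hlogt.eventually_ge_atTop
    (32 * E * C1 / ε + 32 / ε + 128 / ε + 1)
  rw [Filter.eventually_atTop] at hlog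
  obtain ⟨n1, hn1⟩ := hlog
  have hloglog := (Real.tendsto_log_atTop.comp hlogt).eventually_ge_atTop (8 * C2 / ε + 8 / ε + 10000)
  rw [Filter.eventually_atTop] at hloglog
  obtain ⟨n3, hn3⟩ := hloglog
  obtain ⟨Z, hZ⟩ := exists_nat_gt (8 / ε + a.natAbs + 3)
  obtain ⟨K0, hK0⟩ := exists_nat_gt (8 / ε)
  refine ⟨max n1 (max NU (max ((Z + 1) ^ (J + 1)) (max n3 (max (K0 ^ 2) 3)))), fun N hN => ?_⟩
  have b1 : n1 ≤ N := le_trans (le_max_left _ _) hN
  have c2 := le_trans (le_max_right n1 _) hN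
  have b2 : NU ≤ N := le_trans (le_max_left _ _) c2
  have c3 := le_trans (le_max_right NU _) c2
  have b3 : (Z + 1) ^ (J + 1) ≤ N := le_trans (le_max_left _ _) c3
  have c4 := le_trans (le_max_right _ _) c3
  have b4 : n3 ≤ N := le_trans (le_max_left _ _) c4
  have c5 := le_trans (le_max_right _ _) c4
  have b5 : K0 ^ 2 ≤ N := le_trans (le_max_left _ _) c5
  have b6 : 3 ≤ N := le_trans (le_max_right _ _) c5
  have hN0 : (0 : ℝ) < N := by exact_mod_cast (by omega : 0 < N)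
  have hN1 : (1 : ℝ) ≤ N := by exact_mod_cast (by omega : 1 ≤ N)
  obtain ⟨L, hL⟩ : ∃ L, L = Real.log N := ⟨_, rfl⟩
  have hLge : 32 * E * C1 / ε + 32 / ε + 128 / ε + 1 ≤ L := by rw [hL]; exact hn1 N b1
  have hp1 : (0 : ℝ) ≤ 32 * E * C1 / ε := by positivity
  have hp2 : (0 : ℝ) ≤ 32 / ε := by positivity
  have hp3 : (0 : ℝ) ≤ 128 / ε := by positivity
  have hL1 : 1 ≤ L := by linarith
  -- parameters
  obtain ⟨LL, hLLd⟩ : ∃ LL, LL = Real.log L := ⟨_, rfl⟩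
  have hLLge : 8 * C2 / ε + 8 / ε + 10000 ≤ LL := by rw [hLLd, hL]; exact hn3 N b4
  obtain ⟨t, ht⟩ : ∃ t : ℕ, t = ⌈1 + LL⌉₊ := ⟨_, rfl⟩
  have hp4 : (0 : ℝ) ≤ 8 * C2 / ε := by positivity
  have hp5 : (0 : ℝ) ≤ 8 / ε := by positivity
  have ht1 : 1 + LL ≤ t := by rw [ht]; exact Nat.le_ceil _
  have ht2 : (t : ℝ) ≤ 2 + LL := by
    have := Nat.ceil_lt_add_one (show 0 ≤ 1 + LL by linarith)
    rw [← ht] at this
    linarith
  have htbig : (10000 : ℝ) ≤ t := by linarith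
  have ht0 : (0 : ℝ) < t := by linarith
  have ht0' : 1 ≤ t := by exact_mod_cast (by linarith : (1 : ℝ) ≤ t)
  obtain ⟨y0, hy0⟩ : ∃ y0, y0 = t ^ 3 := ⟨_, rfl⟩
  have hy01 : 1 ≤ y0 := by rw [hy0]; exact Nat.one_le_pow _ _ ht0'
  have hy0r : (y0 : ℝ) = (t : ℝ) ^ 3 := by rw [hy0]; push_cast; ring
  obtain ⟨Gr, hGr⟩ : ∃ Gr : ℝ, Gr = L ^ 16 := ⟨_, rfl⟩
  have hGr1 : 1 ≤ Gr := by rw [hGr]; exact one_le_pow₀ hL1
  obtain ⟨Y, hY⟩ : ∃ Y : ℝ, Y = (N : ℝ) ^ (1 / (E : ℝ)) := ⟨_, rfl⟩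
  obtain ⟨K, hK⟩ : ∃ K : ℕ, K = ⌊Y⌋₊ := ⟨_, rfl⟩
  obtain ⟨z, hz⟩ : ∃ z : ℕ, z = ⌊(N : ℝ) ^ (1 / ((J + 1 : ℕ) : ℝ))⌋₊ := ⟨_, rfl⟩
  have hJ1 : ((J + 1 : ℕ) : ℝ) ≠ 0 := by positivity
  have hE0 : (E : ℝ) ≠ 0 := by linarith
  have hz1 : N < (z + 1) ^ (J + 1) := by
    have h1 : (N : ℝ) ^ (1 / ((J + 1 : ℕ) : ℝ)) < ((z + 1 : ℕ) : ℝ) := by
      rw [hz]; push_cast
      exact Nat.lt_floor_add_one _
    have h2 : (N : ℝ) < (((z + 1) ^ (J + 1) : ℕ) : ℝ) := by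
      calc (N : ℝ) = ((N : ℝ) ^ (1 / ((J + 1 : ℕ) : ℝ))) ^ (J + 1) := by
            rw [← Real.rpow_natCast, ← Real.rpow_mul hN0.le, one_div_mul_cancel hJ1, Real.rpow_one]
        _ < (((z + 1 : ℕ) : ℝ)) ^ (J + 1) := pow_lt_pow_left₀ h1 (by positivity) (by omega)
        _ = _ := by push_cast; ring
    exact_mod_cast h2
  have hzZ : Z ≤ z := by
    by_contra h
    push Not at h
    have : (z + 1) ^ (J + 1) ≤ (Z + 1) ^ (J + 1) := Nat.pow_le_pow_left (by omega) _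
    omega
  have hZr : 8 / ε + a.natAbs + 3 < (z : ℝ) := by
    have : (Z : ℝ) ≤ z := by exact_mod_cast hzZ
    linarith
  have h8e : (0 : ℝ) < 8 / ε := by positivity
  have hza : a.natAbs + 3 ≤ z := by
    have : ((a.natAbs + 3 : ℕ) : ℝ) ≤ z := by
      push_cast
      linarith
    exact_mod_cast this
  have hz8 : 8 / ε ≤ (z : ℝ) := by
    have h1 : (0 : ℝ) ≤ a.natAbs := Nat.cast_nonneg _
    linarith
  have hz1' : 1 ≤ z := by omega
  have hlz : Real.log z ≤ L / (J + 1) := by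
    have h1 : (z : ℝ) ≤ (N : ℝ) ^ (1 / ((J + 1 : ℕ) : ℝ)) := by
      rw [hz]
      exact Nat.floor_le (by positivity)
    have h2 := Real.log_le_log (by exact_mod_cast hz1') h1
    rw [Real.log_rpow hN0] at h2
    rw [hL]
    refine h2.trans (le_of_eq ?_)
    push_cast
    ring
  have hY0 : 0 < Y := by rw [hY]; positivity
  have hlY : Real.log Y = L / E := by
    rw [hY, Real.log_rpow hN0, hL]
    ring
  have hY1 : 1 < Y := by
    rw [← Real.log_pos_iff hY0.le, hlY]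
    positivity
  have hKY : (K : ℝ) ≤ Y := by rw [hK]; exact Nat.floor_le hY0.le
  have hYE : Y ^ E = N := by
    rw [hY, ← Real.rpow_natCast, ← Real.rpow_mul hN0.le, one_div_mul_cancel hE0, Real.rpow_one]
  have hkE : ∀ k : ℕ, k ≤ K → k ^ E ≤ N := by
    intro k hk
    have h1 : (k : ℝ) ≤ Y := le_trans (by exact_mod_cast hk) hKY
    have h2 : ((k ^ E : ℕ) : ℝ) ≤ N := by
      push_cast
      rw [← hYE]
      exact pow_le_pow_left₀ (Nat.cast_nonneg _) h1 E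
    exact_mod_cast h2
  -- the parts
  obtain ⟨S1, hS1⟩ : ∃ S, S = (Icc 1 N).filter (fun m => Y < (sp z m : ℝ)) := ⟨_, rfl⟩
  obtain ⟨S2, hS2⟩ : ∃ S, S = (Icc 1 N).filter (fun m => ∃ p : ℕ, p.Prime ∧ z < p ∧ p ^ 2 ∣ m) := ⟨_, rfl⟩
  obtain ⟨T1, hT1⟩ : ∃ S, S = (Icc 1 N).filter (fun m => ∃ l p p' : ℕ, l.Prime ∧ y0 < l ∧ p.Prime ∧ p'.Prime ∧
    p ≠ p' ∧ p ∣ m ∧ p' ∣ m ∧ l ∣ p - 1 ∧ l ∣ p' - 1) := ⟨_, rfl⟩
  obtain ⟨T2, hT2⟩ : ∃ S, S = (Icc 1 N).filter (fun m => ∃ p : ℕ, p.Prime ∧ y0 < p ∧ p ^ 2 ∣ m) := ⟨_, rfl⟩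
  obtain ⟨T3, hT3⟩ : ∃ S, S = (Icc 1 N).filter (fun m => ∃ p : ℕ, p.Prime ∧ p ∣ m ∧ Gr < (sp y0 (p - 1) : ℝ)) :=
    ⟨_, rfl⟩
  obtain ⟨S4, hS4⟩ : ∃ S, S = (Icc 1 K).biUnion (fun k => (UU2 a Good z k ⌊Gr⌋₊ (N / k)).image (fun u => k * u)) :=
    ⟨_, rfl⟩
  have hcov : (Icc 1 N).filter (fun m => ¬ (0 < (car m : ℤ) + a ∧ Good ((car m : ℤ) + a).toNat)) ⊆
      (((S1 ∪ S2) ∪ Icc 1 K) ∪ S4) ∪ ((T1 ∪ T2) ∪ T3) := by
    intro m hm
    rw [mem_filter] at hm
    obtain ⟨hmI, hbad⟩ := hm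
    obtain ⟨hm1, hmN⟩ := mem_Icc.1 hmI
    by_cases hT : m ∈ (T1 ∪ T2) ∪ T3
    · exact mem_union_right _ hT
    apply mem_union_left
    rw [mem_union, mem_union, not_or, not_or] at hT
    obtain ⟨⟨g1, g2⟩, g3⟩ := hT
    rw [hT1] at g1
    rw [hT2] at g2
    rw [hT3] at g3
    rw [mem_union, mem_union, mem_union]
    by_cases h1 : Y < (sp z m : ℝ)
    · left; left; left
      rw [hS1, mem_filter, mem_Icc]
      exact ⟨⟨hm1, hmN⟩, h1⟩
    by_cases h2 : ∃ p : ℕ, p.Prime ∧ z < p ∧ p ^ 2 ∣ m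
    · left; left; right
      rw [hS2, mem_filter, mem_Icc]
      exact ⟨⟨hm1, hmN⟩, h2⟩
    have hmul := sp_mul_rp z m (by omega)
    have hk1 := sp_pos z m
    have hu1 := rp_pos z m
    have hkK : sp z m ≤ K := by
      rw [hK]
      exact Nat.le_floor (not_lt.1 h1)
    by_cases h3 : rp z m = 1
    · left; right
      rw [h3, mul_one] at hmul
      rw [mem_Icc]
      omega
    right
    have hrough : Rough z (rp z m) := fun p hp hd => lt_of_dvd_rp hp hd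
    have hsq : Squarefree (rp z m) := by
      rw [Nat.squarefree_iff_prime_squarefree]
      intro p hp hd
      apply h2
      refine ⟨p, hp, hrough p hp ((dvd_mul_right p p).trans hd), ?_⟩
      rw [pow_two]
      rw [← hmul]
      exact hd.trans (dvd_mul_left _ _)
    have hfm : car m = Nat.lcm (car (sp z m)) (car (rp z m)) := by
      conv_lhs => rw [← hmul]
      exact ArithmeticFunction.carmichael_mul (coprime_sp_rp z m)
    have hpos : 0 < (car m : ℤ) + a := by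
      obtain ⟨p, hp, hpd⟩ := Nat.exists_prime_and_dvd h3
      have e1 := hrough p hp hpd
      have e2 : p ∣ m := by rw [← hmul]; exact hpd.mul_left _
      have e3 : car p = p - 1 := car_prime hp (by omega)
      have e4 : car p ≤ car m := Nat.le_of_dvd (car_pos hm1) (ArithmeticFunction.carmichael_dvd e2)
      have h4 : a.natAbs < car m := by omega
      omega
    have hng : ¬ Good ((car m : ℤ) + a).toNat := fun h => hbad ⟨hpos, h⟩
    rw [hS4, mem_biUnion]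
    refine ⟨sp z m, by rw [mem_Icc]; exact ⟨hk1, hkK⟩, ?_⟩
    rw [mem_image]
    refine ⟨rp z m, ?_, hmul⟩
    rw [UU2, mem_filter, mem_Icc]
    rw [hfm] at hpos hng
    refine ⟨⟨hu1, ?_⟩, hsq, hrough, ?_, hpos, hng⟩
    · rw [Nat.le_div_iff_mul_le hk1, mul_comm, hmul]
      exact hmN
    · intro p hp hpd
      exact gcd_small hmI g1 g2 g3 p hp hpd
  -- the sizes
  have q1 : (S1.card : ℝ) ≤ ε / 8 * N := by
    have h1 := hC1 N z Y hz1' hY1
    rw [hS1]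
    refine h1.trans ?_
    rw [hlY]
    have hEpos : (0 : ℝ) < E := by linarith
    have hJ2 : 32 * E / ε < (J : ℝ) + 1 := by linarith
    have hJp : (0 : ℝ) < (J : ℝ) + 1 := by positivity
    have h2 : L / (J + 1) ≤ ε * L / (32 * E) := by
      rw [div_le_div_iff₀ hJp (by positivity)]
      rw [div_lt_iff₀ hε] at hJ2
      nlinarith
    have h3 : C1 ≤ ε * L / (32 * E) := by
      rw [le_div_iff₀ (by positivity)]
      have : 32 * E * C1 / ε ≤ L := by linarith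
      rw [div_le_iff₀ hε] at this
      linarith
    have h4 : Real.log z + C1 ≤ ε * L / (16 * E) := by
      have : ε * L / (16 * E) = ε * L / (32 * E) + ε * L / (32 * E) := by
        field_simp
        ring
      rw [this]
      linarith
    rw [div_le_iff₀ (by positivity)]
    have h5 : ε / 8 * N * (L / E) = 2 * N * (ε * L / (16 * E)) := by
      field_simp
      ring
    rw [h5]
    exact mul_le_mul_of_nonneg_left h4 (by positivity)
  have q2 : (S2.card : ℝ) ≤ ε / 8 * N := by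
    rw [hS2]
    refine (few_square N z hz1').trans ?_
    rw [div_le_iff₀ (by exact_mod_cast hz1')]
    rw [div_le_iff₀ hε] at hz8
    nlinarith
  have q3 : ((Icc 1 K).card : ℝ) ≤ ε / 8 * N := by
    rw [Nat.card_Icc, Nat.add_sub_cancel]
    have h1 : K ^ 2 ≤ N := by
      rcases Nat.eq_zero_or_pos K with h0 | h0
      · rw [h0]; omega
      · refine le_trans (Nat.pow_le_pow_right h0 (by omega)) (hkE K le_rfl)
    have h2 : K0 * K ≤ N := by
      have h3 : (K0 * K) ^ 2 ≤ N ^ 2 := by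
        calc (K0 * K) ^ 2 = K0 ^ 2 * K ^ 2 := by ring
          _ ≤ N * N := Nat.mul_le_mul b5 h1
          _ = N ^ 2 := by ring
      exact (Nat.pow_le_pow_iff_left (by norm_num)).1 h3
    have h3 : (K0 : ℝ) * K ≤ N := by exact_mod_cast h2
    have h4 : 8 / ε * K ≤ N := by
      refine le_trans ?_ h3
      exact mul_le_mul_of_nonneg_right hK0.le (Nat.cast_nonneg _)
    have h5 : (K : ℝ) = ε / 8 * (8 / ε * K) := by field_simp
    rw [h5]
    exact mul_le_mul_of_nonneg_left h4 (by positivity)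
  have q4 : (S4.card : ℝ) ≤ ε / 8 * N := by
    have h1 : (S4.card : ℝ) ≤ ∑ k ∈ Icc 1 K, ((UU2 a Good z k ⌊Gr⌋₊ (N / k)).card : ℝ) := by
      have h0 : S4.card ≤ ∑ k ∈ Icc 1 K, (UU2 a Good z k ⌊Gr⌋₊ (N / k)).card := by
        rw [hS4]
        exact card_biUnion_le.trans (sum_le_sum (fun k _ => card_image_le))
      exact_mod_cast h0
    have h2 : ∀ k ∈ Icc 1 K, ((UU2 a Good z k ⌊Gr⌋₊ (N / k)).card : ℝ) ≤ N / L ^ 2 * (1 / k) := by
      intro k hk
      rw [mem_Icc] at hk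
      have e1 := hkE k hk.2
      have e3 : k ^ 3 ≤ N := by rw [hEE] at e1; exact e1
      have e4 : k ≤ N / k := by
        rw [Nat.le_div_iff_mul_le (by omega)]
        calc k * k = k ^ 2 := by ring
          _ ≤ k ^ 3 := Nat.pow_le_pow_right hk.1 (by norm_num)
          _ ≤ N := e3
      have e5 := hNU N b2 z k ⌊Gr⌋₊ (N / k) hz1 hk.1 (Nat.div_le_self _ _) e4 (y_facts b6 hk.1 e3)
        (Nat.le_floor (by rw [Nat.cast_one]; exact hGr1)) (by
          rw [← hL, ← hGr]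
          exact Nat.floor_le (by linarith))
      refine e5.trans ?_
      rw [← hL]
      have e6 : ((N / k : ℕ) : ℝ) ≤ N / k := Nat.cast_div_le
      calc ((N / k : ℕ) : ℝ) / L ^ 2 ≤ (N / k) / L ^ 2 := div_le_div_of_nonneg_right e6 (by positivity)
        _ = N / L ^ 2 * (1 / k) := by ring
    refine h1.trans ((sum_le_sum h2).trans ?_)
    rw [← mul_sum]
    have h3 := harm_le K
    have h4 : 1 + Real.log K ≤ 2 * L := by
      have : Real.log K ≤ L / E := by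
        rcases Nat.eq_zero_or_pos K with h0 | h0
        · rw [h0, Nat.cast_zero, Real.log_zero]
          positivity
        · rw [← hlY]
          exact Real.log_le_log (by exact_mod_cast h0) hKY
      have h5 : L / E ≤ L := div_le_self (by linarith) (by linarith)
      linarith
    calc N / L ^ 2 * ∑ k ∈ Icc 1 K, (1 / (k : ℝ)) ≤ N / L ^ 2 * (2 * L) :=
          mul_le_mul_of_nonneg_left (h3.trans h4) (by positivity)
      _ = 2 * N / L := by field_simp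
      _ ≤ ε / 8 * N := by
          rw [div_le_iff₀ (by linarith)]
          have h6 : 32 / ε ≤ L := by linarith
          rw [div_le_iff₀ hε] at h6
          nlinarith
  have q5 : (T1.card : ℝ) ≤ ε / 8 * N := by
    have h1 := hC2 N y0 b6 hy01
    rw [← hL, ← hLLd] at h1
    rw [hT1]
    refine h1.trans ?_
    rw [mul_comm]
    apply mul_le_mul_of_nonneg_right _ hN0.le
    rw [hy0r, div_le_iff₀ (by positivity)]
    have e1 : (1 + LL) ^ 2 ≤ (t : ℝ) ^ 2 := pow_le_pow_left₀ (by linarith) ht1 2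
    have e2 : 8 * C2 / ε ≤ t := by linarith
    rw [div_le_iff₀ hε] at e2
    have e3 : C2 ≤ ε / 8 * t := by linarith
    calc C2 * (1 + LL) ^ 2 ≤ (ε / 8 * t) * (t : ℝ) ^ 2 :=
          mul_le_mul e3 e1 (by positivity) (by positivity)
      _ = ε / 8 * (t : ℝ) ^ 3 := by ring
  have q6 : (T2.card : ℝ) ≤ ε / 8 * N := by
    rw [hT2]
    refine (few_square N y0 hy01).trans ?_
    rw [hy0r, div_le_iff₀ (by positivity)]
    have e2 : 8 / ε ≤ t := by linarith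
    rw [div_le_iff₀ hε] at e2
    have e3 : (t : ℝ) ≤ (t : ℝ) ^ 3 := le_self_pow₀ (by linarith) (by norm_num)
    have e4 : ε / 8 * t ≤ ε / 8 * (t : ℝ) ^ 3 := mul_le_mul_of_nonneg_left e3 (by positivity)
    have e5 : 1 ≤ ε / 8 * (t : ℝ) ^ 3 := by linarith
    calc (N : ℝ) = 1 * N := (one_mul _).symm
      _ ≤ (ε / 8 * (t : ℝ) ^ 3) * N := mul_le_mul_of_nonneg_right e5 hN0.le
      _ = ε / 8 * N * (t : ℝ) ^ 3 := by ring
  have q7 : (T3.card : ℝ) ≤ ε / 8 * N := by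
    have h1 := bad3 N y0 Gr _ (rankin N y0 Gr (by linarith))
    rw [hT3]
    refine h1.trans ?_
    rw [mul_comm]
    apply mul_le_mul_of_nonneg_right _ hN0.le
    rw [← hL]
    have hL0 : 0 < L := by linarith
    have e1 : Gr ^ (-(1 / 4) : ℝ) = 1 / L ^ 4 := by
      rw [hGr, ← Real.rpow_natCast, ← Real.rpow_mul hL0.le,
        show (((16 : ℕ) : ℝ) * -(1 / 4)) = -((4 : ℕ) : ℝ) by norm_num, Real.rpow_neg hL0.le, Real.rpow_natCast, one_div]
    have e2 : 10 * (y0 : ℝ) ^ (1 / 4 : ℝ) ≤ t := by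
      have f1 : (y0 : ℝ) ^ (1 / 4 : ℝ) = (t : ℝ) ^ (3 / 4 : ℝ) := by
        rw [hy0r, ← Real.rpow_natCast, ← Real.rpow_mul ht0.le]
        norm_num
      have f2 : (t : ℝ) = (t : ℝ) ^ (1 / 4 : ℝ) * (t : ℝ) ^ (3 / 4 : ℝ) := by
        rw [← Real.rpow_add ht0]
        norm_num
      have f3 : (10 : ℝ) ≤ (t : ℝ) ^ (1 / 4 : ℝ) := by
        have : (10000 : ℝ) ^ (1 / 4 : ℝ) ≤ (t : ℝ) ^ (1 / 4 : ℝ) :=
          Real.rpow_le_rpow (by norm_num) htbig (by norm_num)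
        refine le_trans (le_of_eq ?_) this
        rw [show (10000 : ℝ) = 10 ^ (4 : ℝ) by norm_num, ← Real.rpow_mul (by norm_num)]
        norm_num
      rw [f1]
      conv_rhs => rw [f2]
      exact mul_le_mul_of_nonneg_right f3 (by positivity)
    have e3 : Real.exp (10 * (y0 : ℝ) ^ (1 / 4 : ℝ)) ≤ 8 * L := by
      refine (Real.exp_le_exp.2 (e2.trans ht2)).trans ?_
      rw [Real.exp_add, hLLd, Real.exp_log hL0]
      apply mul_le_mul_of_nonneg_right _ hL0.le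
      have f1 : Real.exp 2 = Real.exp 1 ^ 2 := by
        rw [← Real.exp_nat_mul]
        norm_num
      rw [f1]
      have f2 := Real.exp_one_lt_d9
      have f3 := Real.exp_pos 1
      nlinarith
    rw [e1]
    have e4 : (1 + L) * (1 / L ^ 4 * Real.exp (10 * (y0 : ℝ) ^ (1 / 4 : ℝ))) ≤ (2 * L) * (1 / L ^ 4 * (8 * L)) := by
      apply mul_le_mul (by linarith) _ (by positivity) (by positivity)
      exact mul_le_mul_of_nonneg_left e3 (by positivity)
    refine e4.trans ?_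
    have e5 : (2 * L) * (1 / L ^ 4 * (8 * L)) = 16 / L ^ 2 := by
      field_simp
      ring
    rw [e5, div_le_iff₀ (by positivity)]
    have e6 : 128 / ε ≤ L := by linarith
    rw [div_le_iff₀ hε] at e6
    have e7 : L ≤ L ^ 2 := le_self_pow₀ hL1 (by norm_num)
    have e8 : ε / 8 * L ≤ ε / 8 * L ^ 2 := mul_le_mul_of_nonneg_left e7 (by positivity)
    linarith
  calc (((Icc 1 N).filter (fun m => ¬ (0 < (car m : ℤ) + a ∧ Good ((car m : ℤ) + a).toNat))).card : ℝ)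
      ≤ (((((S1 ∪ S2) ∪ Icc 1 K) ∪ S4) ∪ ((T1 ∪ T2) ∪ T3)).card : ℝ) := by exact_mod_cast card_le_card hcov
    _ ≤ (S1.card : ℝ) + S2.card + (Icc 1 K).card + S4.card + (T1.card + T2.card + T3.card) := by
        have a0 := card_union_le (((S1 ∪ S2) ∪ Icc 1 K) ∪ S4) ((T1 ∪ T2) ∪ T3)
        have a1 := card_union_le ((S1 ∪ S2) ∪ Icc 1 K) S4
        have a2 := card_union_le (S1 ∪ S2) (Icc 1 K)
        have a3 := card_union_le S1 S2
        have a4 := card_union_le (T1 ∪ T2) T3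
        have a5 := card_union_le T1 T2
        have : ((((S1 ∪ S2) ∪ Icc 1 K) ∪ S4) ∪ ((T1 ∪ T2) ∪ T3)).card ≤
          S1.card + S2.card + (Icc 1 K).card + S4.card + (T1.card + T2.card + T3.card) := by omega
        exact_mod_cast this
    _ ≤ ε * N := by
        have : (0 : ℝ) ≤ ε * N := by positivity
        linarith

end Pool.Agent.N756.CF
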